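import Pool.Agent.H22.OV8.Main
import Pool.Agent.H51.QOV.TOP

set_option autoImplicit false
set_option linter.unusedSectionVars false

namespace Pool.Agent.H22.OV8

open Pool.Agent.H51.QOV (top_ell topQ top_coord topT topT_inj top_tits fr fr_def)

/-- The case `q = 8` from the affine normal form with disjoint binary digits. -/
theorem top8 (F : Type) [Field F] [Fintype F] (S : Set (Projectivization F (Fin 4 → F)))
    (hc : Fintype.card F = 8)
    (hcap : ∀ f : Fin 3 → Projectivization F (Fin 4 → F), Function.Injective f →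
      (∀ i, f i ∈ S) → LinearIndependent F (fun i => (f i).rep))
    (A : (Fin 4 → F) ≃ₗ[F] (Fin 4 → F)) (f : F → F → F)
    (hmem : ∀ p, p ∈ S ↔
      ((∃ s t c : F, A ![1, s, t, f s t] = c • p.rep) ∨ ∃ c : F, A ![0, 0, 0, 1] = c • p.rep))
    (hov : ∀ u w : F × F, u ≠ w → f u.1 u.2 + f w.1 w.2 ≠ u.1 * w.2 + u.2 * w.1)
    (hf : ∃ c0 a b c d e k m n : F, ∀ s t : F, f s t = c0 + s * t + a * s ^ 2 + b * t ^ 2 +
      c * s ^ 4 + d * t ^ 4 + e * (s ^ 2 * t ^ 4) + k * (s ^ 4 * t ^ 2) + m * s ^ 6 + n * t ^ 6) :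
    (∃ Q : QuadraticForm F (Fin 4 → F), ∀ p, p ∈ S ↔ Q p.rep = 0) ∨
      (∃ e : ℕ, 1 ≤ e ∧ Fintype.card F = 2 ^ (2 * e + 1) ∧
        ∃ A : (Fin 4 → F) ≃ₗ[F] (Fin 4 → F), ∀ p, p ∈ S ↔
          ((∃ s t c : F,
              A ![1, s, t, s ^ (2 ^ (e + 1)) + s * t + t ^ (2 ^ (e + 1) + 2)] = c • p.rep) ∨
           ∃ c : F, A ![0, 0, 0, 1] = c • p.rep)) := by
  have : CharP F 2 := charP_of_card_eq_prime_pow (f := 3) (by rw [hc]; norm_num)
  obtain ⟨c0, a, b, c, d, e, k, m, n, hf⟩ := hf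
  have hfn : ∀ u : F × F, f u.1 u.2 = fn c0 a b c d e k m n u := fun u => hf u.1 u.2
  have ov : Ov (fn c0 a b c d e k m n) := by
    intro u v huv
    rw [← hfn, ← hfn]
    exact hov u v huv
  obtain ⟨e1, e2, he, hcase⟩ := main8 hc ov
  have he' : Pool.Agent.H51.QOV.om e1 e2 = 1 := he
  rcases hcase with ⟨A0, hA⟩ | hA
  · left
    have hF : ∃ y : F, y ≠ 0 ∧ y ≠ 1 := by
      by_contra hh
      push Not at hh
      have : Fintype.card F ≤ 2 := by
        classical
        have hsub : (Finset.univ : Finset F) ⊆ {0, 1} := by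
          intro y _
          by_cases hy : y = 0
          · simp [hy]
          · simp [hh y hy]
        exact (Finset.card_le_card hsub).trans (Finset.card_le_two)
      omega
    have hsl := Pool.Agent.H51.QOV.top_slope S hcap A f hmem
    have hform : ∀ u : F × F, (1 : F) * (f u.1 u.2 + f 0 0 + 0 * u.1 + 0 * u.2) =
        A0 * (Pool.Agent.H51.QOV.om u e2) ^ 2 +
          Pool.Agent.H51.QOV.om u e2 * Pool.Agent.H51.QOV.om e1 u +
          (Pool.Agent.H51.QOV.om e1 u) ^ 2 := by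
      intro u
      have h1 := hA (Pool.Agent.H51.QOV.om u e2) (Pool.Agent.H51.QOV.om e1 u)
      rw [top_coord he', ← hfn] at h1
      have h2 : fn c0 a b c d e k m n (0 : F × F) = f 0 0 := (hfn 0).symm
      rw [h2] at h1
      rw [← h1]; ring
    refine ⟨(topQ 1 0 0 (f 0 0) A0 e1 e2).comp (A.symm : (Fin 4 → F) →ₗ[F] (Fin 4 → F)), ?_⟩
    intro p
    rw [hmem]
    have hp : A.symm p.rep ≠ 0 := by
      intro h0
      exact p.rep_nonzero (A.symm.injective (by rw [h0, map_zero]))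
    have := top_ell hF f hsl 1 0 0 A0 one_ne_zero e1 e2 hform (A.symm p.rep) hp
    rw [QuadraticMap.comp_apply]
    change _ ↔ topQ 1 0 0 (f 0 0) A0 e1 e2 (A.symm p.rep) = 0
    rw [this]
    have key : ∀ (v : Fin 4 → F) (c : F), A v = c • p.rep ↔ v = c • A.symm p.rep := by
      intro v c
      rw [← map_smul, LinearEquiv.eq_symm_apply]
    simp only [key]
  · right
    refine ⟨1, le_rfl, by rw [hc]; norm_num, ?_⟩
    have hr : ∀ x : F, fr (2 : ZMod 3) x = x ^ 4 := by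
      intro x
      rw [fr_def]
      rfl
    have hA' : ∀ s t : F, (1 : F) * (f (s • e1 + t • e2).1 (s • e1 + t • e2).2 + f 0 0 +
        0 * (s • e1 + t • e2).1 + 0 * (s • e1 + t • e2).2) =
        fr (2 : ZMod 3) s * s ^ 2 + s * t + fr (2 : ZMod 3) t := by
      intro s t
      have h1 := hA s t
      rw [← hfn] at h1
      have h2 : fn c0 a b c d e k m n (0 : F × F) = f 0 0 := (hfn 0).symm
      rw [h2] at h1
      rw [hr, hr, ← h1]; ring
    have hinj := topT_inj (1 : F) 0 0 (f 0 0) one_ne_zero e1 e2 he'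
    let T : (Fin 4 → F) ≃ₗ[F] (Fin 4 → F) :=
      LinearEquiv.ofInjectiveEndo (topT 1 0 0 (f 0 0) e1 e2) hinj
    refine ⟨T.trans A, ?_⟩
    intro p
    rw [hmem, top_tits f 1 0 0 one_ne_zero e1 e2 he' (2 : ZMod 3) hA' A p.rep]
    have hT : ∀ v, (T.trans A) v = A (topT 1 0 0 (f 0 0) e1 e2 v) := fun v => rfl
    simp only [hT]
    have e3 : ∀ s t : F, fr (2 : ZMod 3) s + s * t + fr (2 : ZMod 3) t * t ^ 2 =
        s ^ (2 ^ (1 + 1)) + s * t + t ^ (2 ^ (1 + 1) + 2) := by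
      intro s t
      rw [hr, hr, pow_add t]
      norm_num
    simp only [e3]

end Pool.Agent.H22.OV8
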