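import Mathlib

/-! Ovoids of `PG(3,8)`: the last step (`h = 3`).  Functions `f` on `F × F`, `|F| = 8`, with disjoint
binary digits and `f u + f v ≠ om u v`, are quadrics or Tits. -/

set_option autoImplicit false
set_option linter.unusedSectionVars false

namespace Pool.Agent.H22.OV8

variable {F : Type} [Field F] [Fintype F] [CharP F 2]

/-- the symplectic form on `F²` (same as `Pool.Agent.H51.QOV.om`). -/
def om (u v : F × F) : F := u.1 * v.2 + u.2 * v.1

/-- the trace of `GF(8)`. -/
def T (z : F) : F := z + z ^ 2 + z ^ 4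

theorem two0 : (2 : F) = 0 := CharTwo.two_eq_zero

theorem pow8 (hc : Fintype.card F = 8) (x : F) : x ^ 8 = x := by
  have := FiniteField.pow_card x
  rwa [hc] at this

theorem sq_add (x y : F) : (x + y) ^ 2 = x ^ 2 + y ^ 2 := by
  linear_combination (x * y) * (two0 : (2 : F) = 0)

theorem four_add (x y : F) : (x + y) ^ 4 = x ^ 4 + y ^ 4 := by
  have h1 : (x + y) ^ 4 = ((x + y) ^ 2) ^ 2 := by ring
  rw [h1, sq_add, sq_add]; ring

theorem T_add (x y : F) : T (x + y) = T x + T y := by
  simp only [T, sq_add, four_add]; ring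

theorem T_zero : T (0 : F) = 0 := by simp [T]

theorem T_one : T (1 : F) = 1 := by
  simp only [T]; linear_combination (two0 : (2 : F) = 0)

theorem T_sq (hc : Fintype.card F = 8) (x : F) : T (x ^ 2) = T x := by
  have h8 := pow8 hc x
  simp only [T]
  linear_combination h8

theorem T_four (hc : Fintype.card F = 8) (x : F) : T (x ^ 4) = T x := by
  have : x ^ 4 = (x ^ 2) ^ 2 := by ring
  rw [this, T_sq hc, T_sq hc]

theorem T_01 (hc : Fintype.card F = 8) (x : F) : T x = 0 ∨ T x = 1 := by
  have h8 := pow8 hc x
  have h1 : T x * (T x + 1) = 0 := by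
    have e : T x ^ 2 = T x := by
      have : T x ^ 2 = x ^ 2 + x ^ 4 + x ^ 8 := by
        simp only [T, sq_add]; ring
      rw [this, h8]; simp only [T]; ring
    linear_combination e + T x * (two0 : (2 : F) = 0)
  rcases mul_eq_zero.1 h1 with h | h
  · exact Or.inl h
  · right
    linear_combination h - (two0 : (2 : F) = 0)

theorem T_nondeg {μ : F} (h : ∀ x, T (μ * x) = 0) : μ = 0 := by
  by_contra hμ
  have := h μ⁻¹
  rw [mul_inv_cancel₀ hμ, T_one] at this
  exact one_ne_zero this

theorem h90 {z : F} (h : T z = 0) (hc : Fintype.card F = 8) :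
    (z + z ^ 4) + (z + z ^ 4) ^ 2 = z := by
  have h8 := pow8 hc z
  simp only [T] at h
  rw [sq_add]
  linear_combination h + h8

/-- `α w + β w²` takes the value `z` if `T(β z / α²) = 0`. -/
theorem hit (hc : Fintype.card F = 8) {α β z : F} (hα : α ≠ 0) (hβ : β ≠ 0)
    (h : T (β / α ^ 2 * z) = 0) : ∃ w, α * w + β * w ^ 2 = z := by
  set v := β / α ^ 2 * z with hv
  have h1 := h90 h hc
  refine ⟨α / β * (v + v ^ 4), ?_⟩
  have h2 : α * (α / β * (v + v ^ 4)) + β * (α / β * (v + v ^ 4)) ^ 2 =
      α ^ 2 / β * ((v + v ^ 4) + (v + v ^ 4) ^ 2) := by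
    field_simp
  rw [h2, h1, hv]
  field_simp

/-- two different hyperplanes `T(λ z) = 0` together cover everything. -/
theorem split (hc : Fintype.card F = 8) {l1 l2 : F} (h1 : l1 ≠ 0) (h2 : l2 ≠ 0) (h12 : l1 ≠ l2)
    (G : F) : ∃ z1 z2, T (l1 * z1) = 0 ∧ T (l2 * z2) = 0 ∧ z1 + z2 = G := by
  rcases T_01 hc (l2 * G) with h | h
  · exact ⟨0, G, by rw [mul_zero, T_zero], h, by ring⟩
  · -- find z with T (l1 z) = 0, T (l2 z) = 1
    have hz : ∃ z, T (l1 * z) = 0 ∧ T (l2 * z) = 1 := by
      by_contra hno
      push Not at hno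
      have hno' : ∀ z, T (l1 * z) = 0 → T (l2 * z) = 0 := by
        intro z hz
        rcases T_01 hc (l2 * z) with h' | h'
        · exact h'
        · exact absurd h' (hno z hz)
      have hz0 : T (l1 * l1⁻¹) = 1 := by rw [mul_inv_cancel₀ h1, T_one]
      rcases T_01 hc (l2 * l1⁻¹) with h3 | h3
      · -- T (l2 z) = 0 for all z
        apply h2
        apply T_nondeg
        intro z
        rcases T_01 hc (l1 * z) with h4 | h4
        · exact hno' z h4
        · have h5 : T (l1 * (z + l1⁻¹)) = 0 := by
            rw [mul_add, T_add, h4, hz0]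
            linear_combination (two0 : (2 : F) = 0)
          have h6 := hno' _ h5
          rw [mul_add, T_add, h3, add_zero] at h6
          exact h6
      · apply h12
        have h7 : l1 + l2 = 0 := by
          apply T_nondeg
          intro z
          rw [add_mul, T_add]
          rcases T_01 hc (l1 * z) with h4 | h4
          · rw [h4, hno' z h4, add_zero]
          · have h5 : T (l1 * (z + l1⁻¹)) = 0 := by
              rw [mul_add, T_add, h4, hz0]
              linear_combination (two0 : (2 : F) = 0)
            have h6 := hno' _ h5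
            rw [mul_add, T_add, h3] at h6
            rw [h4]
            linear_combination h6
        linear_combination h7 - l2 * (two0 : (2 : F) = 0)
    obtain ⟨z, hz1, hz2⟩ := hz
    refine ⟨z, G + z, hz1, ?_, ?_⟩
    · rw [mul_add, T_add, h, hz2]
      linear_combination (two0 : (2 : F) = 0)
    · linear_combination z * (two0 : (2 : F) = 0)

/-- a polynomial function of degree `≤ 3` that vanishes everywhere. -/
theorem poly3 (hc : Fintype.card F = 8) {A B C D : F}
    (h : ∀ y : F, A + B * y + C * y ^ 2 + D * y ^ 3 = 0) : A = 0 ∧ B = 0 ∧ C = 0 ∧ D = 0 := by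
  classical
  let p : Polynomial F := Polynomial.C A + Polynomial.C B * Polynomial.X +
    Polynomial.C C * Polynomial.X ^ 2 + Polynomial.C D * Polynomial.X ^ 3
  have hdeg : p.natDegree < 8 := by
    have : p.natDegree ≤ 3 := by
      simp only [p]; compute_degree
    omega
  have hp : p = 0 := by
    apply Polynomial.eq_zero_of_natDegree_lt_card_of_eval_eq_zero' p Finset.univ
    · intro y _
      have := h y
      simp only [p, Polynomial.eval_add, Polynomial.eval_mul, Polynomial.eval_pow,
        Polynomial.eval_C, Polynomial.eval_X]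
      exact this
    · rw [Finset.card_univ, hc]; exact hdeg
  have c0 : p.coeff 0 = A := by simp [p]
  have c1 : p.coeff 1 = B := by simp [p, Polynomial.coeff_X, Polynomial.coeff_C]
  have c2 : p.coeff 2 = C := by simp [p, Polynomial.coeff_X, Polynomial.coeff_C]
  have c3 : p.coeff 3 = D := by simp [p, Polynomial.coeff_X, Polynomial.coeff_C]
  rw [hp] at c0 c1 c2 c3
  simp only [Polynomial.coeff_zero] at c0 c1 c2 c3
  exact ⟨c0.symm, c1.symm, c2.symm, c3.symm⟩

end Pool.Agent.H22.OV8
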