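import Pool.Agent.H22.OV8.Core

set_option autoImplicit false
set_option linter.unusedSectionVars false

namespace Pool.Agent.H22.OV8

variable {F : Type} [Field F] [Fintype F] [CharP F 2]

/-- the function with disjoint digits. -/
def fn (c0 a b c d e k m n : F) (u : F × F) : F :=
  c0 + u.1 * u.2 + a * u.1 ^ 2 + b * u.2 ^ 2 + c * u.1 ^ 4 + d * u.2 ^ 4 +
    e * (u.1 ^ 2 * u.2 ^ 4) + k * (u.1 ^ 4 * u.2 ^ 2) + m * u.1 ^ 6 + n * u.2 ^ 6

/-- conclusion. -/
def Good (f : F × F → F) : Prop :=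
  ∃ e1 e2 : F × F, om e1 e2 = 1 ∧
    ((∃ A : F, ∀ s t : F, f (s • e1 + t • e2) + f 0 = A * s ^ 2 + s * t + t ^ 2) ∨
     (∀ s t : F, f (s • e1 + t • e2) + f 0 = s ^ 4 * s ^ 2 + s * t + t ^ 4))

def Ov (f : F × F → F) : Prop := ∀ u v : F × F, u ≠ v → f u + f v ≠ om u v

theorem diff (c0 a b c d e k m n x y s t : F) :
    fn c0 a b c d e k m n (s + x, t + y) + fn c0 a b c d e k m n (s, t) +
      om ((s + x, t + y) : F × F) (s, t) =
    (x * y + (a * x ^ 2 + b * y ^ 2 + c * x ^ 4 + d * y ^ 4 + e * (x ^ 2 * y ^ 4) +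
      k * (x ^ 4 * y ^ 2) + m * x ^ 6 + n * y ^ 6)) +
    (m * x ^ 4 + e * y ^ 4) * s ^ 2 + (m * x ^ 2 + k * y ^ 2) * (s ^ 2) ^ 2 +
    (n * y ^ 4 + k * x ^ 4) * t ^ 2 + (n * y ^ 2 + e * x ^ 2) * (t ^ 2) ^ 2 := by
  have h2 : (2 : F) = 0 := two0
  have e6 : ∀ p q : F, (p + q) ^ 6 = (p ^ 2 + q ^ 2) * (p ^ 4 + q ^ 4) := by
    intro p q
    have : (p + q) ^ 6 = (p + q) ^ 2 * (p + q) ^ 4 := by ring
    rw [this, sq_add, four_add]
  simp only [fn, om, sq_add, four_add, e6]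
  linear_combination (c0 + s * t + a * s ^ 2 + b * t ^ 2 + c * s ^ 4 + d * t ^ 4 +
    e * (s ^ 2 * t ^ 4) + k * (s ^ 4 * t ^ 2) + m * s ^ 6 + n * t ^ 6 + s * t +
    x * t + y * s) * h2

/-- the basic non-vanishing. -/
theorem key (hc : Fintype.card F = 8) {c0 a b c d e k m n : F}
    (ov : Ov (fn c0 a b c d e k m n)) {x y : F} (hxy : x ≠ 0 ∨ y ≠ 0) (w1 w2 : F) :
    (x * y + (a * x ^ 2 + b * y ^ 2 + c * x ^ 4 + d * y ^ 4 + e * (x ^ 2 * y ^ 4) +
      k * (x ^ 4 * y ^ 2) + m * x ^ 6 + n * y ^ 6)) +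
    (m * x ^ 4 + e * y ^ 4) * w1 + (m * x ^ 2 + k * y ^ 2) * w1 ^ 2 +
    (n * y ^ 4 + k * x ^ 4) * w2 + (n * y ^ 2 + e * x ^ 2) * w2 ^ 2 ≠ 0 := by
  intro h0
  have h2 : (2 : F) = 0 := two0
  have hs : (w1 ^ 4) ^ 2 = w1 := by rw [← pow_mul]; exact pow8 hc w1
  have ht : (w2 ^ 4) ^ 2 = w2 := by rw [← pow_mul]; exact pow8 hc w2
  have hd := diff c0 a b c d e k m n x y (w1 ^ 4) (w2 ^ 4)
  rw [hs, ht, h0] at hd
  apply ov (w1 ^ 4 + x, w2 ^ 4 + y) (w1 ^ 4, w2 ^ 4)
  · intro hh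
    rw [Prod.mk.injEq] at hh
    rcases hxy with h | h
    · exact h (by linear_combination hh.1)
    · exact h (by linear_combination hh.2)
  · linear_combination hd - om ((w1 ^ 4 + x, w2 ^ 4 + y) : F × F) (w1 ^ 4, w2 ^ 4) * h2

/-- abstract version: what `key` says about the four coefficients. -/
theorem coefs (hc : Fintype.card F = 8) {G α1 β1 α2 β2 : F}
    (H : ∀ w1 w2 : F, G + α1 * w1 + β1 * w1 ^ 2 + α2 * w2 + β2 * w2 ^ 2 ≠ 0) :
    (α1 = 0 ↔ β1 = 0) ∧ (α2 = 0 ↔ β2 = 0) ∧ β1 * α2 ^ 2 = β2 * α1 ^ 2 := by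
  have h2 : (2 : F) = 0 := two0
  have a1 : ∀ w, G + α1 * w + β1 * w ^ 2 ≠ 0 := by
    intro w hw
    apply H w 0
    linear_combination hw
  have a2 : ∀ w, G + α2 * w + β2 * w ^ 2 ≠ 0 := by
    intro w hw
    apply H 0 w
    linear_combination hw
  have gen : ∀ {α β : F}, (∀ w, G + α * w + β * w ^ 2 ≠ 0) → (α = 0 ↔ β = 0) := by
    intro α β hw
    constructor
    · intro hα
      by_contra hβ
      apply hw ((G / β) ^ 4)
      have : ((G / β) ^ 4) ^ 2 = G / β := by rw [← pow_mul]; exact pow8 hc _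
      have h5 : β * (G / β) = G := by field_simp
      rw [hα, this, h5]
      linear_combination G * h2
    · intro hβ
      by_contra hα
      apply hw (G / α)
      have h5 : α * (G / α) = G := by field_simp
      rw [hβ, h5]
      linear_combination G * h2
  have g1 := gen a1
  have g2 := gen a2
  refine ⟨g1, g2, ?_⟩
  by_cases z1 : α1 = 0
  · rw [g1.1 z1, z1]; ring
  by_cases z2 : α2 = 0
  · rw [g2.1 z2, z2]; ring
  have y1 : β1 ≠ 0 := fun h => z1 (g1.2 h)
  have y2 : β2 ≠ 0 := fun h => z2 (g2.2 h)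
  by_contra hne
  have hl : β1 / α1 ^ 2 ≠ β2 / α2 ^ 2 := by
    intro hh
    apply hne
    rw [div_eq_div_iff (pow_ne_zero 2 z1) (pow_ne_zero 2 z2)] at hh
    exact hh
  obtain ⟨p, q, hp, hq, hpq⟩ := split hc (div_ne_zero y1 (pow_ne_zero 2 z1))
    (div_ne_zero y2 (pow_ne_zero 2 z2)) hl G
  obtain ⟨w1, hw1⟩ := hit hc z1 y1 hp
  obtain ⟨w2, hw2⟩ := hit hc z2 y2 hq
  apply H w1 w2
  linear_combination hw1 + hw2 + hpq - G * h2 + G * h2 + G * h2 - (p + q) * h2 + (p + q) * h2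

/-- one coefficient pair: the trace condition. -/
theorem trace_cond (hc : Fintype.card F = 8) {G α β : F} (hα : α ≠ 0) (hβ : β ≠ 0)
    (H : ∀ w : F, G + α * w + β * w ^ 2 ≠ 0) : T (β / α ^ 2 * G) = 1 := by
  rcases T_01 hc (β / α ^ 2 * G) with h | h
  · exfalso
    obtain ⟨w, hw⟩ := hit hc hα hβ h
    apply H w
    linear_combination hw + G * (two0 : (2 : F) = 0)
  · exact h

/-- changing coordinates. -/
theorem Good_trans {f g : F × F → F} (φ : F × F → F × F) (hadd : ∀ u v, φ (u + v) = φ u + φ v)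
    (hsm : ∀ (c : F) u, φ (c • u) = c • φ u) (hom : ∀ u v, om (φ u) (φ v) = om u v)
    (hfg : ∀ u, g u = f (φ u)) (hg : Good g) : Good f := by
  obtain ⟨e1, e2, he, hcase⟩ := hg
  refine ⟨φ e1, φ e2, by rw [hom, he], ?_⟩
  have h0 : φ 0 = 0 := by
    have := hsm 0 0
    rwa [zero_smul, zero_smul] at this
  have hval : ∀ s t : F, f (s • φ e1 + t • φ e2) + f 0 = g (s • e1 + t • e2) + g 0 := by
    intro s t
    rw [hfg, hfg, h0, hadd, hsm, hsm]
  rcases hcase with ⟨A, hA⟩ | hA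
  · exact Or.inl ⟨A, fun s t => by rw [hval, hA]⟩
  · exact Or.inr fun s t => by rw [hval, hA]

/-- Case A: only `s^6` in degree 6. -/
theorem caseA (hc : Fintype.card F = 8) {c0 a b c d m : F} (hm : m ≠ 0)
    (ov : Ov (fn c0 a b c d 0 0 m 0)) : Good (fn c0 a b c d 0 0 m 0) := by
  have h2 : (2 : F) = 0 := two0
  -- trace condition
  have htr : ∀ x y : F, x ≠ 0 →
      T (x * m⁻¹ * (x * y + (a * x ^ 2 + b * y ^ 2 + c * x ^ 4 + d * y ^ 4 + m * x ^ 6))) = 1 := by
    intro x y hx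
    have h1 := trace_cond (G := x * y + (a * x ^ 2 + b * y ^ 2 + c * x ^ 4 + d * y ^ 4 + m * x ^ 6))
      hc (mul_ne_zero hm (pow_ne_zero 4 hx)) (mul_ne_zero hm (pow_ne_zero 2 hx)) (by
        intro w hw
        apply key hc ov (x := x) (y := y) (Or.inl hx) w 0
        linear_combination hw)
    have h3 : m * x ^ 2 / (m * x ^ 4) ^ 2 = x * m⁻¹ := by
      have h8 := pow8 hc x
      rw [div_eq_iff (pow_ne_zero 2 (mul_ne_zero hm (pow_ne_zero 4 hx)))]
      have : x * m⁻¹ * (m * x ^ 4) ^ 2 = m * m⁻¹ * (x * m * x ^ 8) := by ring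
      rw [this, h8, mul_inv_cancel₀ hm]
      ring
    rw [h3] at h1
    exact h1
  -- part independent of y
  have h7 : ∀ x : F, x ≠ 0 → x ^ 7 = 1 := by
    intro x hx
    have h8 := pow8 hc x
    apply mul_left_cancel₀ hx
    linear_combination h8
  have hA : ∀ x : F, T ((a * m⁻¹) * x ^ 3 + (c * m⁻¹) * x ^ 5) = 0 := by
    intro x
    by_cases hx : x = 0
    · rw [hx]; simp [T]
    have h1 := htr x 0 hx
    have e1 : x * m⁻¹ * (x * 0 + (a * x ^ 2 + b * 0 ^ 2 + c * x ^ 4 + d * 0 ^ 4 + m * x ^ 6)) =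
        ((a * m⁻¹) * x ^ 3 + (c * m⁻¹) * x ^ 5) + 1 := by
      have h3 := h7 x hx
      have h4 : m⁻¹ * m = 1 := inv_mul_cancel₀ hm
      linear_combination h3 + (x ^ 7) * h4
    rw [e1, T_add, T_one] at h1
    linear_combination h1
  have hB : ∀ x y : F, T (x * m⁻¹ * (x * y + b * y ^ 2 + d * y ^ 4)) = 0 := by
    intro x y
    by_cases hx : x = 0
    · rw [hx]; simp [T]
    have h1 := htr x y hx
    have h3 := htr x 0 hx
    have e1 : x * m⁻¹ * (x * y + (a * x ^ 2 + b * y ^ 2 + c * x ^ 4 + d * y ^ 4 + m * x ^ 6)) =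
        x * m⁻¹ * (x * y + b * y ^ 2 + d * y ^ 4) +
        x * m⁻¹ * (x * 0 + (a * x ^ 2 + b * 0 ^ 2 + c * x ^ 4 + d * 0 ^ 4 + m * x ^ 6)) := by
      ring
    rw [e1, T_add, h3] at h1
    linear_combination h1
  -- b = 0, d^2 = m
  have hB2 : ∀ x : F, x ^ 4 * (b * m⁻¹) ^ 4 + x ^ 2 * ((d * m⁻¹) ^ 2 + m⁻¹) = 0 := by
    intro x
    apply T_nondeg
    intro y
    have h1 := hB x y
    have e1 : x * m⁻¹ * (x * y + b * y ^ 2 + d * y ^ 4) =
        x ^ 2 * m⁻¹ * y + (x * (b * m⁻¹) * y ^ 2) + (x * (d * m⁻¹) * y ^ 4) := by ring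
    rw [e1, T_add, T_add, ← T_four hc (x * (b * m⁻¹) * y ^ 2),
      ← T_sq hc (x * (d * m⁻¹) * y ^ 4), ← T_add, ← T_add] at h1
    have e2 : x ^ 2 * m⁻¹ * y + (x * (b * m⁻¹) * y ^ 2) ^ 4 + (x * (d * m⁻¹) * y ^ 4) ^ 2 =
        (x ^ 4 * (b * m⁻¹) ^ 4 + x ^ 2 * ((d * m⁻¹) ^ 2 + m⁻¹)) * y := by
      have h8 := pow8 hc y
      linear_combination (x ^ 4 * (b * m⁻¹) ^ 4 + x ^ 2 * (d * m⁻¹) ^ 2) * h8
    rw [e2] at h1
    exact h1
  have hB3 : ∀ y : F, (0 : F) + ((d * m⁻¹) ^ 2 + m⁻¹) * y + (b * m⁻¹) ^ 4 * y ^ 2 + 0 * y ^ 3 = 0 := by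
    intro y
    have h1 := hB2 (y ^ 4)
    have h8 := pow8 hc y
    have e1 : (y ^ 4) ^ 4 * (b * m⁻¹) ^ 4 + (y ^ 4) ^ 2 * ((d * m⁻¹) ^ 2 + m⁻¹) =
        (y ^ 8) ^ 2 * (b * m⁻¹) ^ 4 + y ^ 8 * ((d * m⁻¹) ^ 2 + m⁻¹) := by ring
    rw [e1, h8] at h1
    linear_combination h1
  obtain ⟨-, q1, q2, -⟩ := poly3 hc hB3
  have hb0 : b = 0 := by
    have := pow_eq_zero_iff (n := 4) (by norm_num) |>.1 q2
    rcases mul_eq_zero.1 this with h | h
    · exact h
    · exact absurd h (inv_ne_zero hm)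
  have hdm : d ^ 2 = m := by
    have h4 : m⁻¹ * m = 1 := inv_mul_cancel₀ hm
    have : (d ^ 2 * m⁻¹ + 1) * m⁻¹ = 0 := by linear_combination q1
    rcases mul_eq_zero.1 this with h | h
    · linear_combination m * h - d ^ 2 * h4 - m * h2
    · exact absurd h (inv_ne_zero hm)
  have hd : d ≠ 0 := by
    rintro rfl
    apply hm
    rw [← hdm]; ring
  -- a m = c^2
  have hac : a * m⁻¹ + (c * m⁻¹) ^ 2 = 0 := by
    apply T_nondeg
    intro z
    have h1 := hA (z ^ 5)
    have h8 := pow8 hc z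
    have e3 : (z ^ 5) ^ 3 = z := by
      have : (z ^ 5) ^ 3 = z ^ 8 * z ^ 7 := by ring
      rw [this, h8]
      linear_combination h8
    have e5 : ((z ^ 5) ^ 5) ^ 2 = z := by
      have : ((z ^ 5) ^ 5) ^ 2 = (z ^ 8) ^ 6 * z ^ 2 := by ring
      rw [this, h8]
      linear_combination h8
    rw [T_add, ← T_sq hc (c * m⁻¹ * (z ^ 5) ^ 5), ← T_add] at h1
    have e1 : a * m⁻¹ * (z ^ 5) ^ 3 + (c * m⁻¹ * (z ^ 5) ^ 5) ^ 2 =
        (a * m⁻¹ + (c * m⁻¹) ^ 2) * z := by
      rw [e3]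
      linear_combination (c * m⁻¹) ^ 2 * e5
    rw [e1] at h1
    exact h1
  have ham : a * m = c ^ 2 := by
    have h4 : m⁻¹ * m = 1 := inv_mul_cancel₀ hm
    linear_combination m ^ 2 * hac - (a * m) * h4 - c ^ 2 * (m⁻¹ * m + 1) * h4 - c ^ 2 * h2
  -- the frame
  have h7d := h7 d hd
  refine ⟨(d ^ 2, c ^ 2), (0, d ^ 5), ?_, Or.inr ?_⟩
  · simp only [om]
    linear_combination h7d
  · intro s t
    have c8 := pow8 hc c
    have d8 := pow8 hc d
    have had : a * d ^ 2 = c ^ 2 := by rw [hdm]; exact ham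
    have ha : a = c ^ 2 * d ^ 5 := by
      linear_combination d ^ 5 * had - a * h7d
    subst hb0
    simp only [fn, Prod.fst_add, Prod.snd_add, Prod.smul_fst, Prod.smul_snd, smul_eq_mul,
      Prod.fst_zero, Prod.snd_zero, mul_zero, add_zero, sq_add, four_add, mul_pow]
    rw [← hdm, ha]
    have hd14 : d ^ 14 = 1 := by
      have : d ^ 14 = (d ^ 7) ^ 2 := by ring
      rw [this, h7d, one_pow]
    have hd21 : d ^ 21 = 1 := by
      have : d ^ 21 = (d ^ 7) ^ 3 := by ring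
      rw [this, h7d, one_pow]
    linear_combination c0 * h2 + (s * t) * h7d + (s ^ 2 * c ^ 2 * d ^ 2) * (h7d + h2) +
      s ^ 4 * (c * d8 + d * c8 + c * d * h2) + t ^ 4 * hd21 + s ^ 6 * hd14

theorem om_swap (u v : F × F) : om (u.2, u.1) (v.2, v.1) = om u v := by
  simp only [om]; ring

/-- swapping the coordinates. -/
theorem Good_swap {f g : F × F → F} (hfg : ∀ u, g u = f (u.2, u.1)) (hg : Good g) : Good f :=
  Good_trans (fun u => (u.2, u.1)) (fun _ _ => rfl) (fun _ _ => rfl) om_swap hfg hg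

theorem Ov_swap {f g : F × F → F} (hfg : ∀ u, g u = f (u.2, u.1)) (hf : Ov f) : Ov g := by
  intro u v huv
  rw [hfg, hfg, ← om_swap]
  apply hf
  intro hh
  rw [Prod.mk.injEq] at hh
  exact huv (Prod.ext hh.2 hh.1)

theorem om_shear (y : F) (u v : F × F) : om (u.1 + y * u.2, u.2) (v.1 + y * v.2, v.2) = om u v := by
  simp only [om]
  linear_combination (y * u.2 * v.2) * (two0 : (2 : F) = 0)

theorem Good_shear (y : F) {f g : F × F → F} (hfg : ∀ u, g u = f (u.1 + y * u.2, u.2))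
    (hg : Good g) : Good f := by
  refine Good_trans (fun u => (u.1 + y * u.2, u.2)) ?_ ?_ (om_shear y) hfg hg
  · intro u v
    refine Prod.ext ?_ rfl
    simp only [Prod.fst_add, Prod.snd_add]; ring
  · intro c u
    refine Prod.ext ?_ rfl
    simp only [Prod.smul_fst, Prod.smul_snd, smul_eq_mul]; ring

theorem Ov_shear (y : F) {f g : F × F → F} (hfg : ∀ u, g u = f (u.1 + y * u.2, u.2))
    (hf : Ov f) : Ov g := by
  intro u v huv
  rw [hfg, hfg, ← om_shear y]
  apply hf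
  intro hh
  rw [Prod.mk.injEq] at hh
  apply huv
  refine Prod.ext ?_ hh.2
  linear_combination hh.1 - y * hh.2

/-- additive case: no fourth power of the first coordinate. -/
theorem add_case (hc : Fintype.card F = 8) {c0 a b c d : F}
    (ov : Ov (fn c0 a b c d 0 0 0 0)) : c = 0 := by
  have h2 : (2 : F) = 0 := two0
  by_contra hc0
  have H : ∀ x y : F, (x ≠ 0 ∨ y ≠ 0) →
      x * y + a * x ^ 2 + b * y ^ 2 + c * x ^ 4 + d * y ^ 4 ≠ 0 := by
    intro x y hxy h0
    apply key hc ov hxy 0 0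
    linear_combination h0
  have h7 : ∀ x : F, x ≠ 0 → x ^ 7 = 1 := by
    intro x hx
    have h8 := pow8 hc x
    apply mul_left_cancel₀ hx
    linear_combination h8
  -- a = 0
  have ha : a = 0 := by
    by_contra ha
    have hx : (a / c) ^ 4 ≠ 0 := pow_ne_zero 4 (div_ne_zero ha hc0)
    apply H ((a / c) ^ 4) 0 (Or.inl hx)
    have h8 := pow8 hc (a / c)
    have e : ((a / c) ^ 4) ^ 4 = ((a / c) ^ 4) ^ 2 * ((a / c) ^ 8) := by ring
    have e1 : c * (a / c) = a := by field_simp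
    rw [e, h8]
    linear_combination ((a / c) ^ 4) ^ 2 * e1 + a * ((a / c) ^ 4) ^ 2 * h2
  subst ha
  -- trace condition
  have htr : ∀ y : F, y ≠ 0 → T (y * (c ^ 2)⁻¹ * (b * y ^ 2 + d * y ^ 4)) = 1 := by
    intro y hy
    rcases T_01 hc (y * (c ^ 2)⁻¹ * (b * y ^ 2 + d * y ^ 4)) with h | h
    · exfalso
      -- solve c x^4 + y x = G
      set v := y * (c ^ 2)⁻¹ * (b * y ^ 2 + d * y ^ 4) with hv
      have h9 : (v + v ^ 2) + (v + v ^ 2) ^ 4 = v := by
        have h8 := pow8 hc v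
        simp only [T] at h
        rw [four_add]
        linear_combination h + h8
      -- x = c^2 y^{-2} w... with w = v + v^2
      have hy7 := h7 y hy
      have hc7 := h7 c hc0
      apply H ((c ^ 2 * y ^ 5) * (v + v ^ 2)) y (Or.inr hy)
      have e1 : v * (c ^ 2 * y ^ 6) = b * y ^ 2 + d * y ^ 4 := by
        rw [hv]
        have : (c ^ 2)⁻¹ * c ^ 2 = 1 := inv_mul_cancel₀ (pow_ne_zero 2 hc0)
        linear_combination (y ^ 7 * (b * y ^ 2 + d * y ^ 4)) * this +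
          (b * y ^ 2 + d * y ^ 4) * hy7
      have hcc : c ^ 9 = c ^ 2 := by linear_combination c ^ 2 * hc7
      have hyy : y ^ 20 = y ^ 6 := by
        linear_combination (y ^ 13 + y ^ 6) * hy7
      have e2 : c * ((c ^ 2 * y ^ 5) * (v + v ^ 2)) ^ 4 =
          c ^ 2 * y ^ 6 * (v + v ^ 2) ^ 4 := by
        linear_combination (y ^ 20 * (v + v ^ 2) ^ 4) * hcc + (c ^ 2 * (v + v ^ 2) ^ 4) * hyy
      linear_combination e2 + (c ^ 2 * y ^ 6) * h9 + e1 +
        (-b * y ^ 2 - d * y ^ 4 + b * y ^ 2 + d * y ^ 4) * h2 + (b * y ^ 2 + d * y ^ 4) * h2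
    · exact h
  have htr2 : ∀ z : F, z ≠ 0 → T ((b * (c ^ 2)⁻¹ + (d * (c ^ 2)⁻¹) ^ 2) * z) = 1 := by
    intro z hz
    have h1 := htr (z ^ 5) (pow_ne_zero 5 hz)
    have h8 := pow8 hc z
    have e3 : (z ^ 5) ^ 3 = z := by
      have : (z ^ 5) ^ 3 = z ^ 8 * z ^ 7 := by ring
      rw [this, h8]
      linear_combination h8
    have e5 : ((z ^ 5) ^ 5) ^ 2 = z := by
      have : ((z ^ 5) ^ 5) ^ 2 = (z ^ 8) ^ 6 * z ^ 2 := by ring
      rw [this, h8]
      linear_combination h8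
    have e4 : z ^ 5 * (c ^ 2)⁻¹ * (b * (z ^ 5) ^ 2 + d * (z ^ 5) ^ 4) =
        b * (c ^ 2)⁻¹ * (z ^ 5) ^ 3 + d * (c ^ 2)⁻¹ * (z ^ 5) ^ 5 := by ring
    rw [e4, T_add, ← T_sq hc (d * (c ^ 2)⁻¹ * (z ^ 5) ^ 5), ← T_add] at h1
    have e1 : b * (c ^ 2)⁻¹ * (z ^ 5) ^ 3 + (d * (c ^ 2)⁻¹ * (z ^ 5) ^ 5) ^ 2 =
        (b * (c ^ 2)⁻¹ + (d * (c ^ 2)⁻¹) ^ 2) * z := by
      rw [e3]
      linear_combination (d * (c ^ 2)⁻¹) ^ 2 * e5
    rw [e1] at h1
    exact h1
  -- an element different from 0, 1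
  have hg : ∃ g : F, g ≠ 0 ∧ g ≠ 1 := by
    by_contra hh
    push Not at hh
    have : Fintype.card F ≤ 2 := by
      classical
      have hsub : (Finset.univ : Finset F) ⊆ {0, 1} := by
        intro y _
        by_cases hy : y = 0
        · simp [hy]
        · simp [hh y hy]
      exact (Finset.card_le_card hsub).trans (Finset.card_le_two)
    omega
  obtain ⟨g, g0, g1⟩ := hg
  have h1 := htr2 1 one_ne_zero
  have h3 := htr2 g g0
  have h4 := htr2 (1 + g) (by
    intro h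
    apply g1
    linear_combination h - h2)
  rw [mul_add, T_add, h1, h3] at h4
  have : (1 : F) = 0 := by linear_combination h4 - h4 + h4 - h4 + h2 - h4
  exact one_ne_zero this

/-- the case `h = 3`. -/
theorem main8 (hc : Fintype.card F = 8) {c0 a b c d e k m n : F}
    (ov : Ov (fn c0 a b c d e k m n)) : Good (fn c0 a b c d e k m n) := by
  have h2 : (2 : F) = 0 := two0
  have hco : ∀ y : F, (m * 1 ^ 2 + k * y ^ 2) * (n * y ^ 4 + k * 1 ^ 4) ^ 2 =
      (n * y ^ 2 + e * 1 ^ 2) * (m * 1 ^ 4 + e * y ^ 4) ^ 2 := by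
    intro y
    exact (coefs hc (key hc ov (x := 1) (y := y) (Or.inl one_ne_zero))).2.2
  have hek : k = 0 ↔ e = 0 := by
    have := (coefs hc (key hc ov (x := 1) (y := 0) (Or.inl one_ne_zero))).2.1
    simpa using this
  have hpoly : ∀ y : F, (m * k ^ 2 + e * m ^ 2) + (m * n ^ 2 + e ^ 3) * y +
      (k ^ 3 + n * m ^ 2) * y ^ 2 + (k * n ^ 2 + n * e ^ 2) * y ^ 3 = 0 := by
    intro y
    have h8 := pow8 hc y
    have h1 := hco y
    rw [sq_add, sq_add] at h1
    linear_combination h1 - (m * n ^ 2 + k * n ^ 2 * y ^ 2) * h8 +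
      (n * e ^ 2 * y ^ 2 + e ^ 3) * h8 + (n * m ^ 2 * y ^ 2 + n * e ^ 2 * y ^ 3 + e * m ^ 2 + e ^ 3 * y) * h2
  obtain ⟨p0, p1, p2, p3⟩ := poly3 hc hpoly
  by_cases he : e = 0
  · have hk : k = 0 := hek.2 he
    subst he hk
    have hmn : m * n ^ 2 = 0 := by linear_combination p1
    rcases mul_eq_zero.1 hmn with hm | hn
    · subst hm
      by_cases hn : n = 0
      · -- additive
        subst hn
        have hc1 : c = 0 := add_case hc ov
        have hfg : ∀ u : F × F, fn c0 b a d c 0 0 0 0 u = fn c0 a b c d 0 0 0 0 (u.2, u.1) := by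
          intro u; simp only [fn]; ring
        have hd1 : d = 0 := add_case hc (Ov_swap hfg ov)
        subst hc1 hd1
        have hb : b ≠ 0 := by
          intro hb
          apply key hc ov (x := 0) (y := 1) (Or.inr one_ne_zero) 0 0
          rw [hb]; ring
        have h8 := pow8 hc b
        have h7 : b ^ 7 = 1 := by
          apply mul_left_cancel₀ hb
          linear_combination h8
        -- e2 = (0, b^3), b * b^6 = 1;  e1 = (b^4, 0)
        refine ⟨(b ^ 4, 0), (0, b ^ 3), ?_, Or.inl ⟨a * b ^ 8, ?_⟩⟩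
        · simp only [om]
          linear_combination h7
        · intro s t
          simp only [fn, Prod.fst_add, Prod.snd_add, Prod.smul_fst, Prod.smul_snd, smul_eq_mul,
            Prod.fst_zero, Prod.snd_zero, mul_zero, zero_mul, add_zero, zero_add]
          linear_combination c0 * h2 + (s * t + t ^ 2) * h7
      · have hfg : ∀ u : F × F, fn c0 b a d c 0 0 n 0 u = fn c0 a b c d 0 0 0 n (u.2, u.1) := by
          intro u; simp only [fn]; ring
        exact Good_swap hfg (caseA hc hn (Ov_swap hfg ov))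
    · have hn0 : n = 0 := by simpa using hn
      subst hn0
      by_cases hm : m = 0
      · subst hm
        have hc1 : c = 0 := add_case hc ov
        have hfg : ∀ u : F × F, fn c0 b a d c 0 0 0 0 u = fn c0 a b c d 0 0 0 0 (u.2, u.1) := by
          intro u; simp only [fn]; ring
        have hd1 : d = 0 := add_case hc (Ov_swap hfg ov)
        subst hc1 hd1
        have hb : b ≠ 0 := by
          intro hb
          apply key hc ov (x := 0) (y := 1) (Or.inr one_ne_zero) 0 0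
          rw [hb]; ring
        have h8 := pow8 hc b
        have h7 : b ^ 7 = 1 := by
          apply mul_left_cancel₀ hb
          linear_combination h8
        refine ⟨(b ^ 4, 0), (0, b ^ 3), ?_, Or.inl ⟨a * b ^ 8, ?_⟩⟩
        · simp only [om]
          linear_combination h7
        · intro s t
          simp only [fn, Prod.fst_add, Prod.snd_add, Prod.smul_fst, Prod.smul_snd, smul_eq_mul,
            Prod.fst_zero, Prod.snd_zero, mul_zero, zero_mul, add_zero, zero_add]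
          linear_combination c0 * h2 + (s * t + t ^ 2) * h7
      · exact caseA hc hm ov
  · -- e ≠ 0
    have hk : k ≠ 0 := fun h => he (hek.1 h)
    have hm : m ≠ 0 := by
      rintro rfl
      apply he
      have : e ^ 3 = 0 := by linear_combination p1
      simpa using this
    have hn : n ≠ 0 := by
      rintro rfl
      apply he
      have : e ^ 3 = 0 := by linear_combination p1
      simpa using this
    have q0 : k ^ 2 = e * m := by
      have : m * (k ^ 2 + e * m) = 0 := by linear_combination p0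
      rcases mul_eq_zero.1 this with h | h
      · exact absurd h hm
      · linear_combination h - e * m * h2
    have q3 : e ^ 2 = k * n := by
      have : n * (e ^ 2 + k * n) = 0 := by linear_combination p3
      rcases mul_eq_zero.1 this with h | h
      · exact absurd h hn
      · linear_combination h - k * n * h2
    -- y with y^2 = k / m
    set y : F := (k / m) ^ 4 with hy
    have hy2 : m * y ^ 2 = k := by
      have h8 := pow8 hc (k / m)
      have : y ^ 2 = (k / m) ^ 8 := by rw [hy]; ring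
      rw [this, h8]; field_simp
    have hy4 : m * y ^ 4 = e := by
      have h1 : m * (m * y ^ 4) = m * e := by
        have : m * (m * y ^ 4) = (m * y ^ 2) ^ 2 := by ring
        rw [this, hy2, q0]; ring
      exact mul_left_cancel₀ hm h1
    have hy6 : m * y ^ 6 = n := by
      have h1 : k * (m * y ^ 6) = k * n := by
        have : k * (m * y ^ 6) = (m * y ^ 2) * (m * y ^ 6) := by rw [hy2]
        rw [this]
        have : (m * y ^ 2) * (m * y ^ 6) = (m * y ^ 4) ^ 2 := by ring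
        rw [this, hy4, q3]
      exact mul_left_cancel₀ hk h1
    have hfg : ∀ u : F × F, fn c0 a (b + y + a * y ^ 2) c (d + c * y ^ 4) 0 0 m 0 u =
        fn c0 a b c d e k m n (u.1 + y * u.2, u.2) := by
      intro u
      have e6 : (u.1 + y * u.2) ^ 6 = (u.1 ^ 2 + (y * u.2) ^ 2) * (u.1 ^ 4 + (y * u.2) ^ 4) := by
        have : (u.1 + y * u.2) ^ 6 = (u.1 + y * u.2) ^ 2 * (u.1 + y * u.2) ^ 4 := by ring
        rw [this, sq_add, four_add]
      simp only [fn]
      rw [e6, sq_add, four_add, ← hy2, ← hy4, ← hy6]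
      linear_combination (-(m * u.1 ^ 2 * y ^ 4 * u.2 ^ 4) - (m * u.1 ^ 4 * y ^ 2 * u.2 ^ 2) -
        (m * y ^ 6 * u.2 ^ 6) * 2) * h2
    exact Good_shear y hfg (caseA hc hm (Ov_shear y hfg ov))

end Pool.Agent.H22.OV8
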